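import Pool.Agent.MC.Final

set_option autoImplicit false

namespace Pool.Agent.Results.MP_a5e2f2_lc.CubicDecimation

/-- Let `n = 5 k` with `k ≥ 3` odd, let `q = 2 ^ k` or `q = 2 ^ (2 k)`, and let `u = 1` or
`u = q ^ 2 + 1`. For every `d` such that `d u` is congruent to a power of two times
`q ^ 2 + q + 1` modulo `2 ^ n - 1`, and for the inverses of these `d`, the cross correlation of
a binary m-sequence of period `2 ^ n - 1` with its decimation by `d` takes the value `-1`. -/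
theorem result :
    ∀ (k : ℕ), Odd k → 3 ≤ k →
      ∀ (F : Type) [Field F] [Fintype F] [Algebra (ZMod 2) F],
        Fintype.card F = 2 ^ (5 * k) →
        ∀ q u d j : ℕ, (q = 2 ^ k ∨ q = 2 ^ (2 * k)) → (u = 1 ∨ u = q ^ 2 + 1) →
          (d * u ≡ 2 ^ j * (q ^ 2 + q + 1) [MOD (2 ^ (5 * k) - 1)] ∨
            d * (q ^ 2 + q + 1) ≡ 2 ^ j * u [MOD (2 ^ (5 * k) - 1)]) →
          Nat.Coprime d (2 ^ (5 * k) - 1) ∧
          ∃ a : F, a ≠ 0 ∧
            ∑ x : F, (-1 : ℤ) ^ ((Algebra.trace (ZMod 2) F (a * x + x ^ d)).val) = 0 := by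
  intro k hk hk3 F _ _ _ hF q u d j hq hu h
  obtain ⟨r, hr, hqr⟩ : ∃ r : ℕ, (r = 1 ∨ r = 2) ∧ q = 2 ^ (r * k) := by
    rcases hq with hq | hq
    · exact ⟨1, Or.inl rfl, by rw [one_mul]; exact hq⟩
    · exact ⟨2, Or.inr rfl, hq⟩
  subst hqr
  have h1 := MC.family_good (F := F) hk hk3 hF hr (d := d) (j := j) (u := u) hu
    (by rw [hF]; exact h)
  have h2 := h1.1
  rw [hF] at h2
  exact ⟨h2, h1.2⟩

end Pool.Agent.Results.MP_a5e2f2_lc.CubicDecimation
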