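import Pool.Agent.MC.Cub4

set_option autoImplicit false

namespace Pool.Agent.Results.MP_a5e2f2_lc.CubicFieldDecimation

/-- Let `n = 3 k` with `k ≥ 2`, let `m = k` or `m = 2 k`, let `x = 1` or `2 x` congruent to
`m + 1` modulo `3 k`, and assume that `v = 2 ^ m + 2 ^ x + 1` is coprime to `2 ^ n - 1`. For every
`d` that is congruent to a power of two times `v` modulo `2 ^ n - 1`, and for the inverses of
these `d`, the cross correlation of a binary m-sequence of period `2 ^ n - 1` with its decimation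
by `d` takes the value `-1`. For `d = v` itself the sum vanishes at all `b ^ 2 + b` other than `1`
with `b` in the subfield with `2 ^ k` elements. -/
theorem result :
    ∀ (k : ℕ), 2 ≤ k →
      ∀ (F : Type) [Field F] [Fintype F] [Algebra (ZMod 2) F],
        Fintype.card F = 2 ^ (3 * k) →
        ∀ m x : ℕ, (m = k ∨ m = 2 * k) → (x = 1 ∨ 2 * x ≡ m + 1 [MOD (3 * k)]) →
          Nat.Coprime (2 ^ m + 2 ^ x + 1) (2 ^ (3 * k) - 1) →
          (∀ d j : ℕ, (d ≡ 2 ^ j * (2 ^ m + 2 ^ x + 1) [MOD (2 ^ (3 * k) - 1)] ∨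
            d * (2 ^ m + 2 ^ x + 1) ≡ 2 ^ j [MOD (2 ^ (3 * k) - 1)]) →
            Nat.Coprime d (2 ^ (3 * k) - 1) ∧
            ∃ a : F, a ≠ 0 ∧
              ∑ y : F, (-1 : ℤ) ^ ((Algebra.trace (ZMod 2) F (a * y + y ^ d)).val) = 0) ∧
          (∀ b : F, b ^ (2 ^ k) = b → b ^ 2 + b ≠ 1 →
            ∑ y : F, (-1 : ℤ) ^ ((Algebra.trace (ZMod 2) F
              ((b ^ 2 + b) * y + y ^ (2 ^ m + 2 ^ x + 1))).val) = 0) := by
  intro k hk F _ _ _ hF m x hkm hx hc
  refine ⟨fun d j h => ?_, fun b hb hb1 => MC.cub34_zero hk hkm hx hc hF hb hb1⟩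
  have h1 := (MC.cub34_good (F := F) hk hkm hx hc hF).equiv (n := 3 * k) (d := d) (j := j)
    (by omega) hF (by rw [hF]; exact h)
  have h2 := h1.1
  rw [hF] at h2
  exact ⟨h2, h1.2⟩

end Pool.Agent.Results.MP_a5e2f2_lc.CubicFieldDecimation
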