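import Pool.Agent.MC.Final

set_option autoImplicit false

namespace Pool.Agent.Results.MP_a5e2f2_lc.DobbertinDecimation

/-- The cross correlation of a binary m-sequence of period `2 ^ (5 k) - 1`, `k` odd, with its
decimation by the Dobbertin exponent, by any exponent cyclotomically equivalent to it, or by an
inverse of one of these, takes the value `-1`. -/
theorem result :
    ∀ (k : ℕ), Odd k →
      ∀ (F : Type) [Field F] [Fintype F] [Algebra (ZMod 2) F],
        Fintype.card F = 2 ^ (5 * k) →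
        ∀ d j : ℕ,
          (d ≡ 2 ^ j * (2 ^ (4 * k) + 2 ^ (3 * k) + 2 ^ (2 * k) + 2 ^ k - 1)
              [MOD (2 ^ (5 * k) - 1)] ∨
            d * (2 ^ (4 * k) + 2 ^ (3 * k) + 2 ^ (2 * k) + 2 ^ k - 1) ≡ 2 ^ j
              [MOD (2 ^ (5 * k) - 1)]) →
          Nat.Coprime d (2 ^ (5 * k) - 1) ∧
          ∃ a : F, a ≠ 0 ∧
            ∑ x : F, (-1 : ℤ) ^ ((Algebra.trace (ZMod 2) F (a * x + x ^ d)).val) = 0 := by
  intro k hk F _ _ _ hF d j h
  have hk0 := hk.pos
  have h1 := MC.Good.equiv (F := F) (n := 5 * k) (j := j) (d := d) (by omega) hF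
    (MC.dobb_good hk hF) (by rw [hF]; exact h)
  have h2 := h1.1
  rw [hF] at h2
  exact ⟨h2, h1.2⟩

end Pool.Agent.Results.MP_a5e2f2_lc.DobbertinDecimation
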