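import Pool.Agent.MC.Tri5

set_option autoImplicit false

namespace Pool.Agent.Results.MP_a5e2f2_lc.QuotientDecimation

/-- Let `n = 3 k` with `k ≥ 3` and let `m = k` or `m = 2 k`, with `m` not congruent to `2` modulo
`3`. For every `d` such that `d (2 ^ m + 1)` is congruent to a power of two times `2 ^ m + 3`
modulo `2 ^ n - 1`, and for the inverses of these `d`, the cross correlation of a binary
m-sequence of period `2 ^ n - 1` with its decimation by `d` takes the value `-1`. If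
`d (2 ^ m + 1)` is congruent to `2 ^ m + 3` itself, then the sum vanishes at all `b ^ 2 + b` other
than `1` with `b` in the subfield with `2 ^ k` elements. -/
theorem result :
    ∀ (k : ℕ), 3 ≤ k →
      ∀ (F : Type) [Field F] [Fintype F] [Algebra (ZMod 2) F],
        Fintype.card F = 2 ^ (3 * k) →
        ∀ m : ℕ, (m = k ∨ m = 2 * k) → m % 3 ≠ 2 →
          (∀ d j : ℕ, (d * (2 ^ m + 1) ≡ 2 ^ j * (2 ^ m + 3) [MOD (2 ^ (3 * k) - 1)] ∨
            d * (2 ^ m + 3) ≡ 2 ^ j * (2 ^ m + 1) [MOD (2 ^ (3 * k) - 1)]) →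
            Nat.Coprime d (2 ^ (3 * k) - 1) ∧
            ∃ a : F, a ≠ 0 ∧
              ∑ y : F, (-1 : ℤ) ^ ((Algebra.trace (ZMod 2) F (a * y + y ^ d)).val) = 0) ∧
          (∀ d : ℕ, d * (2 ^ m + 1) ≡ 2 ^ m + 3 [MOD (2 ^ (3 * k) - 1)] →
            ∀ b : F, b ^ (2 ^ k) = b → b ^ 2 + b ≠ 1 →
              ∑ y : F, (-1 : ℤ) ^ ((Algebra.trace (ZMod 2) F
                ((b ^ 2 + b) * y + y ^ d)).val) = 0) := by
  intro k hk F _ _ _ hF m hkm hm
  refine ⟨fun d j h => ?_, fun d hd b hb hb1 =>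
    MC.tri_zero (by omega) hkm hm hF (by rw [hF]; exact hd) hb hb1⟩
  have h1 := MC.quot_good (F := F) (n := 3 * k) (u := 2 ^ m + 1) (v := 2 ^ m + 3) (d := d) (j := j)
    (by omega) hF (by rw [hF]; exact MC.coprime_tri (by omega) hkm)
    (fun d₀ h₀ => MC.tri_good hk hkm hm hF h₀) (by rw [hF]; exact h)
  have h2 := h1.1
  rw [hF] at h2
  exact ⟨h2, h1.2⟩

end Pool.Agent.Results.MP_a5e2f2_lc.QuotientDecimation
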